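import Pool.Agent.Helper60_DDQ.Flt
import Pool.Agent.Helper47_DDQ.Chg

/-!
# DDQ: module GEO (helper60)

A smooth, non flat point of degree `m` outside `G = 0`, and coordinates at this point.
-/

set_option autoImplicit false

namespace Pool.Agent.DDQ.H60

open MvPolynomial Pool.Agent.DDQ IntermediateField

/-- partial derivatives commute -/
theorem pderiv_comm' {k : Type} [Field k] (i j : Fin 3) (P : MvPolynomial (Fin 3) k) :
    pderiv i (pderiv j P) = pderiv j (pderiv i P) := by
  rcases eq_or_ne i j with h | h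
  · rw [h]
  · ext m
    rw [coeff_pderiv, coeff_pderiv, coeff_pderiv, coeff_pderiv, add_right_comm,
      Finsupp.add_apply, Finsupp.add_apply, Finsupp.single_eq_of_ne (Ne.symm h),
      Finsupp.single_eq_of_ne h]
    push_cast
    ring

section shift

variable {k K : Type} [Field k] [Field K] [Algebra k K]

theorem shift_add (x : Fin 3 → K) (e : Matrix (Fin 3) (Fin 3) K) (P Q : MvPolynomial (Fin 3) k) :
    shift x e (P + Q) = shift x e P + shift x e Q := map_add _ _ _

theorem shift_mul (x : Fin 3 → K) (e : Matrix (Fin 3) (Fin 3) K) (P Q : MvPolynomial (Fin 3) k) :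
    shift x e (P * Q) = shift x e P * shift x e Q := map_mul _ _ _

theorem shift_zero (x : Fin 3 → K) (e : Matrix (Fin 3) (Fin 3) K) :
    shift x e (0 : MvPolynomial (Fin 3) k) = 0 := map_zero _

theorem shift_X (x : Fin 3 → K) (e : Matrix (Fin 3) (Fin 3) K) (i : Fin 3) :
    shift x e (X i : MvPolynomial (Fin 3) k) = C (x i) + ∑ j, C (e i j) * X j := by
  unfold shift
  rw [aeval_X]

theorem shift_C (x : Fin 3 → K) (e : Matrix (Fin 3) (Fin 3) K) (a : k) :
    shift x e (C a : MvPolynomial (Fin 3) k) = C (algebraMap k K a) := by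
  unfold shift
  rw [aeval_C]
  rfl

/-- the chain rule -/
theorem pderiv_shift (x : Fin 3 → K) (e : Matrix (Fin 3) (Fin 3) K) (j : Fin 3)
    (P : MvPolynomial (Fin 3) k) :
    pderiv j (shift x e P) = ∑ i, C (e i j) * shift x e (pderiv i P) := by
  induction P using MvPolynomial.induction_on with
  | C a =>
    rw [shift_C, pderiv_C]
    simp [shift_zero]
  | add p q hp hq =>
    rw [shift_add, map_add, hp, hq, ← Finset.sum_add_distrib]
    refine Finset.sum_congr rfl fun i _ => ?_
    rw [map_add, shift_add, mul_add]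
  | mul_X p i hp =>
    rw [shift_mul, pderiv_mul, hp]
    have h1 : ∀ l, C (e l j) * shift x e (pderiv l (p * X i)) =
        C (e l j) * shift x e (pderiv l p) * shift x e (X i : MvPolynomial (Fin 3) k) +
        shift x e p * (if l = i then C (e l j) else 0) := by
      intro l
      rw [pderiv_mul, shift_add, shift_mul, shift_mul]
      by_cases hl : l = i
      · subst hl
        rw [pderiv_X_self, if_pos rfl]
        have : shift x e (1 : MvPolynomial (Fin 3) k) = 1 := map_one _
        rw [this]
        ring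
      · rw [pderiv_X_of_ne (fun h => hl h.symm), if_neg hl, shift_zero]
        ring
    have h2 : pderiv j (shift x e (X i : MvPolynomial (Fin 3) k)) = C (e i j) := by
      rw [shift_X, map_add, pderiv_C, zero_add, map_sum, Finset.sum_eq_single j]
      · rw [pderiv_C_mul, pderiv_X_self, mul_one]
      · intro l _ hl
        rw [pderiv_C_mul, pderiv_X_of_ne hl, mul_zero]
      · intro h; exact absurd (Finset.mem_univ j) h
    rw [Finset.sum_congr rfl (fun l _ => h1 l), Finset.sum_add_distrib, ← Finset.sum_mul,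
      ← Finset.mul_sum, h2]
    simp

theorem eval_shift (x : Fin 3 → K) (e : Matrix (Fin 3) (Fin 3) K) (P : MvPolynomial (Fin 3) k) :
    eval 0 (shift x e P) = aeval x P := by
  induction P using MvPolynomial.induction_on with
  | C a => rw [shift_C, eval_C, aeval_C]
  | add p q hp hq => rw [shift_add, map_add, map_add, hp, hq]
  | mul_X p i hp =>
    rw [shift_mul, map_mul, map_mul, hp, shift_X, aeval_X]
    simp

end shift

section components

variable {K : Type} [Field K]

theorem comp_zero (Φ : MvPolynomial (Fin 3) K) :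
    homogeneousComponent 0 Φ = C (eval 0 Φ) := by
  rw [homogeneousComponent_zero, ← constantCoeff_eq, eval_zero]

/-- a homogeneous polynomial of positive degree vanishes at `0` -/
theorem eval_zero_of_hom {Ψ : MvPolynomial (Fin 3) K} {n : ℕ} (h : Ψ.IsHomogeneous n)
    (hn : n ≠ 0) : eval 0 Ψ = 0 := by
  rw [eval_zero, constantCoeff_eq]
  apply h.coeff_eq_zero
  simpa using hn.symm

theorem eval_pderiv (Φ : MvPolynomial (Fin 3) K) (j : Fin 3) :
    eval 0 (pderiv j Φ) = eval 0 (pderiv j (homogeneousComponent 1 Φ)) := by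
  have h1 := sum_homogeneousComponent Φ
  conv_lhs => rw [← h1]
  rw [map_sum, map_sum]
  have h2 : ∀ i, i ≠ 1 → eval 0 (pderiv j (homogeneousComponent i Φ)) = 0 := by
    intro i hi
    rcases Nat.eq_zero_or_pos i with h0 | h0
    · rw [h0, comp_zero, pderiv_C, map_zero]
    · exact eval_zero_of_hom (homogeneousComponent_isHomogeneous i Φ).pderiv (by omega)
  by_cases hd : 1 ∈ Finset.range (Φ.totalDegree + 1)
  · exact Finset.sum_eq_single_of_mem 1 hd fun i _ hi => h2 i hi
  · rw [Finset.sum_eq_zero (fun i hi => h2 i (by rintro rfl; exact hd hi))]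
    rw [homogeneousComponent_eq_zero 1 Φ (by
      rw [Finset.mem_range] at hd
      omega), map_zero, map_zero]

theorem comp_one (Φ : MvPolynomial (Fin 3) K) :
    homogeneousComponent 1 Φ = ∑ j, X j * C (eval 0 (pderiv j Φ)) := by
  have h1 := (homogeneousComponent_isHomogeneous 1 Φ).sum_X_mul_pderiv
  rw [one_smul] at h1
  rw [← h1]
  refine Finset.sum_congr rfl fun j _ => ?_
  rw [eval_pderiv]
  congr 1
  have h2 := (homogeneousComponent_isHomogeneous 1 Φ).pderiv (i := j)
  have h3 := homogeneousComponent_of_mem (m := 0) h2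
  rw [if_pos rfl, comp_zero] at h3
  exact h3.symm

theorem pderiv_comp (Φ : MvPolynomial (Fin 3) K) (j : Fin 3) (n : ℕ) :
    pderiv j (homogeneousComponent (n + 1) Φ) = homogeneousComponent n (pderiv j Φ) := by
  ext m
  rw [coeff_pderiv, coeff_homogeneousComponent, coeff_homogeneousComponent, coeff_pderiv]
  have h1 : (m + Finsupp.single j 1).degree = m.degree + 1 := by
    rw [map_add, Finsupp.degree_single]
  rw [h1]
  by_cases h : m.degree = n
  · rw [if_pos h, if_pos (by omega)]
  · rw [if_neg h, if_neg (by omega), zero_mul]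

theorem comp_two (Φ : MvPolynomial (Fin 3) K) :
    2 • homogeneousComponent 2 Φ =
      ∑ j, X j * ∑ l, X l * C (eval 0 (pderiv l (pderiv j Φ))) := by
  rw [← (homogeneousComponent_isHomogeneous 2 Φ).sum_X_mul_pderiv]
  refine Finset.sum_congr rfl fun j _ => ?_
  rw [pderiv_comp, comp_one]

end components

/-- a basis adapted to a nonzero linear form -/
theorem adapted {K : Type} [Field K] (g : Fin 3 → K) (hg : ∃ r, g r ≠ 0) :
    ∃ e : Matrix (Fin 3) (Fin 3) K, IsUnit e.det ∧ ∑ i, e i 0 * g i = 0 ∧
      ∑ i, e i 1 * g i = 1 ∧ ∑ i, e i 2 * g i = 0 := by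
  obtain ⟨r, hr⟩ := hg
  fin_cases r
  · refine ⟨!![-(g 1 / g 0), 1 / g 0, -(g 2 / g 0); 1, 0, 0; 0, 0, 1], ?_, ?_, ?_, ?_⟩
    · rw [Matrix.det_fin_three, isUnit_iff_ne_zero]
      simpa using hr
    all_goals
      simp only [Fin.sum_univ_three, Matrix.of_apply, Matrix.cons_val]
      have : g 0 ≠ 0 := hr
      field_simp
      try ring
  · refine ⟨!![1, 0, 0; -(g 0 / g 1), 1 / g 1, -(g 2 / g 1); 0, 0, 1], ?_, ?_, ?_, ?_⟩
    · rw [Matrix.det_fin_three, isUnit_iff_ne_zero]
      simpa using hr
    all_goals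
      simp only [Fin.sum_univ_three, Matrix.of_apply, Matrix.cons_val]
      have : g 1 ≠ 0 := hr
      field_simp
      try ring
  · refine ⟨!![1, 0, 0; 0, 0, 1; -(g 0 / g 2), 1 / g 2, -(g 1 / g 2)], ?_, ?_, ?_, ?_⟩
    · rw [Matrix.det_fin_three, isUnit_iff_ne_zero]
      simpa using hr
    all_goals
      simp only [Fin.sum_univ_three, Matrix.of_apply, Matrix.cons_val]
      have : g 2 ≠ 0 := hr
      field_simp
      try ring

theorem quad_zero {K : Type} [Field K] {a b c d : K}
    (h : Polynomial.C a + Polynomial.X * (Polynomial.C b + Polynomial.C c) +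
      Polynomial.X ^ 2 * Polynomial.C d = 0) : a = 0 ∧ b + c = 0 ∧ d = 0 := by
  have h' : ∀ n, (Polynomial.C a + Polynomial.C (b + c) * Polynomial.X +
      Polynomial.C d * Polynomial.X ^ 2 : Polynomial K).coeff n = 0 := by
    intro n
    have : (Polynomial.C a + Polynomial.C (b + c) * Polynomial.X +
      Polynomial.C d * Polynomial.X ^ 2 : Polynomial K) = 0 := by
      rw [← h, Polynomial.C_add]; ring
    rw [this, Polynomial.coeff_zero]
  have c0 := h' 0
  have c1 := h' 1
  have c2 := h' 2
  simp only [Polynomial.coeff_add, Polynomial.coeff_C_mul, Polynomial.coeff_C, Polynomial.coeff_X,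
    Polynomial.coeff_X_pow] at c0 c1 c2
  simp at c0 c1 c2
  exact ⟨c0, c1, c2⟩

/-- the kernel of the linear form is spanned by the first and the last vector -/
theorem tangent_span {K : Type} [Field K] {g v : Fin 3 → K} {e : Matrix (Fin 3) (Fin 3) K}
    (he : IsUnit e.det) (h0 : ∑ i, e i 0 * g i = 0) (h1 : ∑ i, e i 1 * g i = 1)
    (h2 : ∑ i, e i 2 * g i = 0) (hv : ∑ i, v i * g i = 0) :
    ∃ s t, ∀ i, v i = s * e i 0 + t * e i 2 := by
  obtain ⟨c, hc⟩ : ∃ c, e.mulVec c = v := by
    refine ⟨e⁻¹.mulVec v, ?_⟩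
    rw [Matrix.mulVec_mulVec, Matrix.mul_nonsing_inv _ he, Matrix.one_mulVec]
  have hvi : ∀ i, v i = e i 0 * c 0 + e i 1 * c 1 + e i 2 * c 2 := by
    intro i
    rw [← hc, Matrix.mulVec, dotProduct, Fin.sum_univ_three]
  have hc1 : c 1 = 0 := by
    rw [Fin.sum_univ_three] at h0 h1 h2 hv
    rw [hvi 0, hvi 1, hvi 2] at hv
    linear_combination hv - c 0 * h0 - c 1 * h1 - c 2 * h2
  exact ⟨c 0, c 2, fun i => by rw [hvi i, hc1]; ring⟩

theorem tangent {K : Type} [Field K] {g v : Fin 3 → K} (i j : Fin 3)
    (hv : v = fun a => g j * (if a = i then 1 else 0) - g i * (if a = j then 1 else 0)) :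
    ∑ a, v a * g a = 0 := by
  have h1 : ∀ a, v a * g a = g j * (if a = i then g a else 0) - g i * (if a = j then g a else 0) := by
    intro a
    simp only [hv]
    split_ifs <;> ring
  rw [Finset.sum_congr rfl (fun a _ => h1 a), Finset.sum_sub_distrib, ← Finset.mul_sum,
    ← Finset.mul_sum, Finset.sum_ite_eq' Finset.univ i, Finset.sum_ite_eq' Finset.univ j,
    if_pos (Finset.mem_univ _), if_pos (Finset.mem_univ _)]
  ring

/-- the values of `hess` -/
theorem hess_val {k K : Type} [Field k] [Field K] [Algebra k K] (F : MvPolynomial (Fin 3) k)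
    (x : Fin 3 → K) (i j l m : Fin 3) {v w : Fin 3 → K}
    (hv : v = fun a => aeval x (pderiv j F) * (if a = i then 1 else 0) -
      aeval x (pderiv i F) * (if a = j then 1 else 0))
    (hw : w = fun a => aeval x (pderiv m F) * (if a = l then 1 else 0) -
      aeval x (pderiv l F) * (if a = m then 1 else 0)) :
    aeval x (hess F i j l m) = ∑ a, ∑ b, v a * w b * aeval x (pderiv a (pderiv b F)) := by
  have h1 : ∀ a, ∑ b, v a * w b * aeval x (pderiv a (pderiv b F)) =
      v a * (aeval x (pderiv m F) * aeval x (pderiv a (pderiv l F)) -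
        aeval x (pderiv l F) * aeval x (pderiv a (pderiv m F))) := by
    intro a
    have h2 : ∀ b, v a * w b * aeval x (pderiv a (pderiv b F)) =
        v a * aeval x (pderiv m F) * (if b = l then aeval x (pderiv a (pderiv b F)) else 0) -
        v a * aeval x (pderiv l F) * (if b = m then aeval x (pderiv a (pderiv b F)) else 0) := by
      intro b
      simp only [hw]
      split_ifs <;> ring
    rw [Finset.sum_congr rfl (fun b _ => h2 b), Finset.sum_sub_distrib, ← Finset.mul_sum,
      ← Finset.mul_sum, Finset.sum_ite_eq' Finset.univ l, Finset.sum_ite_eq' Finset.univ m,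
      if_pos (Finset.mem_univ _), if_pos (Finset.mem_univ _)]
    ring
  rw [Finset.sum_congr rfl (fun a _ => h1 a)]
  have h3 : ∀ a, v a * (aeval x (pderiv m F) * aeval x (pderiv a (pderiv l F)) -
        aeval x (pderiv l F) * aeval x (pderiv a (pderiv m F))) =
      aeval x (pderiv j F) * (if a = i then (aeval x (pderiv m F) *
        aeval x (pderiv a (pderiv l F)) - aeval x (pderiv l F) *
        aeval x (pderiv a (pderiv m F))) else 0) -
      aeval x (pderiv i F) * (if a = j then (aeval x (pderiv m F) *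
        aeval x (pderiv a (pderiv l F)) - aeval x (pderiv l F) *
        aeval x (pderiv a (pderiv m F))) else 0) := by
    intro a
    simp only [hv]
    split_ifs <;> ring
  rw [Finset.sum_congr rfl (fun a _ => h3 a), Finset.sum_sub_distrib, ← Finset.mul_sum,
    ← Finset.mul_sum, Finset.sum_ite_eq' Finset.univ i, Finset.sum_ite_eq' Finset.univ j,
    if_pos (Finset.mem_univ _), if_pos (Finset.mem_univ _)]
  unfold hess
  simp only [map_sub, map_mul]

/-- GEO. -/
theorem geo (flt : FltStmt) : GeoStmt := by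
  intro k _ _ F G m hirr hdeg hdense hG
  have : CharZero (AlgebraicClosure k) :=
    charZero_of_injective_algebraMap (algebraMap k (AlgebraicClosure k)).injective
  have hirrk : Irreducible F := H47.irr_of_map _ hirr
  obtain ⟨i, j, l, n, hh⟩ := flt (AlgebraicClosure k)
    (map (algebraMap k (AlgebraicClosure k)) F) hirr (by rw [H47.totalDegree_mapI]; exact hdeg)
  have hmap : hess (map (algebraMap k (AlgebraicClosure k)) F) i j l n =
      map (algebraMap k (AlgebraicClosure k)) (hess F i j l n) := by
    unfold hess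
    simp only [pderiv_map, map_sub, map_mul]
  rw [hmap] at hh
  have hh' : ¬ F ∣ hess F i j l n := fun h => hh (map_dvd _ h)
  have hGh : ¬ F ∣ G * hess F i j l n := fun h => (hirrk.prime.dvd_or_dvd h).elim hG hh'
  obtain ⟨y, hy0, hy1, hy2⟩ := hdense _ hGh
  let K : IntermediateField k (AlgebraicClosure k) := adjoin k (Set.range y)
  let x : Fin 3 → K := fun a => ⟨y a, subset_adjoin k _ ⟨a, rfl⟩⟩
  have hx : ∀ P : MvPolynomial (Fin 3) k,
      aeval y P = algebraMap K (AlgebraicClosure k) (aeval x P) :=
    fun P => aeval_algebraMap_apply (AlgebraicClosure k) x P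
  have hx' : ∀ P : MvPolynomial (Fin 3) k, aeval y P = 0 ↔ aeval x P = 0 := by
    intro P
    rw [hx, map_eq_zero]
  have hF : aeval x F = 0 := (hx' F).1 hy0
  have hne : aeval x (G * hess F i j l n) ≠ 0 := fun h => hy1 ((hx' _).2 h)
  rw [map_mul] at hne
  have hGx := left_ne_zero_of_mul hne
  have hhx := right_ne_zero_of_mul hne
  obtain ⟨v, hv⟩ : ∃ v : Fin 3 → K, v = fun a => aeval x (pderiv j F) *
    (if a = i then 1 else 0) - aeval x (pderiv i F) * (if a = j then 1 else 0) := ⟨_, rfl⟩
  obtain ⟨w, hw⟩ : ∃ w : Fin 3 → K, w = fun a => aeval x (pderiv n F) *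
    (if a = l then 1 else 0) - aeval x (pderiv l F) * (if a = n then 1 else 0) := ⟨_, rfl⟩
  rw [hess_val F x i j l n hv hw] at hhx
  have hg : ∃ r, aeval x (pderiv r F) ≠ 0 := by
    by_contra hcon
    push Not at hcon
    apply hhx
    rw [hv]
    simp only [hcon]
    simp
  obtain ⟨e, he, he0, he1, he2⟩ := adapted (fun r => aeval x (pderiv r F)) hg
  have hfin : FiniteDimensional k K := by
    apply finiteDimensional_adjoin
    intro a _
    exact Algebra.IsIntegral.isIntegral a
  -- the second derivatives of the shifted polynomial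
  have hB : ∀ p q : Fin 3, eval 0 (pderiv p (pderiv q (shift x e F))) =
      ∑ a, ∑ b, e a p * e b q * aeval x (pderiv a (pderiv b F)) := by
    intro p q
    rw [pderiv_shift, map_sum, map_sum, Finset.sum_comm]
    refine Finset.sum_congr rfl fun b _ => ?_
    rw [pderiv_C_mul, map_mul, eval_C, pderiv_shift, map_sum, Finset.mul_sum]
    refine Finset.sum_congr rfl fun a _ => ?_
    rw [map_mul, eval_C, eval_shift]
    ring
  have hBs : ∀ p q : Fin 3, eval 0 (pderiv p (pderiv q (shift x e F))) =
      eval 0 (pderiv q (pderiv p (shift x e F))) := fun p q => by rw [pderiv_comm']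
  refine ⟨K, x, e, hfin, hy2, he, hGx, ?_, ?_, ?_⟩
  · rw [comp_zero, eval_shift, hF, C_0]
  · rw [comp_one]
    have h1 : ∀ q, eval 0 (pderiv q (shift x e F)) = ∑ a, e a q * aeval x (pderiv a F) := by
      intro q
      rw [pderiv_shift, map_sum]
      refine Finset.sum_congr rfl fun a _ => ?_
      rw [map_mul, eval_C, eval_shift]
    rw [Fin.sum_univ_three, h1 0, h1 1, h1 2, he0, he1, he2]
    simp
  · intro hzero
    have h2 := congrArg (aeval (![1, 0, Polynomial.X] : Fin 3 → Polynomial K))
      (comp_two (shift x e F))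
    rw [map_nsmul, hzero, smul_zero, map_sum] at h2
    simp only [Fin.sum_univ_three, map_add, map_mul, aeval_X, algHom_C, Matrix.cons_val_zero,
      Matrix.cons_val_one, Matrix.cons_val, one_mul, zero_mul, add_zero] at h2
    have h3 : Polynomial.C (eval 0 (pderiv 0 (pderiv 0 (shift x e F)))) +
        Polynomial.X * (Polynomial.C (eval 0 (pderiv 2 (pderiv 0 (shift x e F)))) +
          Polynomial.C (eval 0 (pderiv 0 (pderiv 2 (shift x e F))))) +
        Polynomial.X ^ 2 * Polynomial.C (eval 0 (pderiv 2 (pderiv 2 (shift x e F)))) = 0 := by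
      rw [h2]
      simp only [Polynomial.algebraMap_eq]
      ring
    obtain ⟨c0, c1, c2⟩ := quad_zero h3
    have hK : CharZero K := charZero_of_injective_algebraMap (algebraMap k K).injective
    have c3 : eval 0 (pderiv 0 (pderiv 2 (shift x e F))) = 0 := by
      rw [hBs 2 0] at c1
      have h4 : (2 : K) * eval 0 (pderiv 0 (pderiv 2 (shift x e F))) = 0 := by
        rw [two_mul]; exact c1
      exact (mul_eq_zero.1 h4).resolve_left two_ne_zero
    have c4 : eval 0 (pderiv 2 (pderiv 0 (shift x e F))) = 0 := by rw [hBs 2 0]; exact c3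
    rw [hB] at c0 c2 c3 c4
    obtain ⟨s, t, hst⟩ := tangent_span he he0 he1 he2
      (tangent (g := fun r => aeval x (pderiv r F)) i j hv)
    obtain ⟨s', t', hst'⟩ := tangent_span he he0 he1 he2
      (tangent (g := fun r => aeval x (pderiv r F)) l n hw)
    apply hhx
    simp only [Fin.sum_univ_three, hst, hst'] at c0 c2 c3 c4 ⊢
    linear_combination s * s' * c0 + s * t' * c3 + t * s' * c4 + t * t' * c2

end Pool.Agent.DDQ.H60
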