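import Pool.Agent.Helper55_DDQ.Stmts

/-!
# DDQ: module FLT (helper60)

A surface on which the second fundamental form vanishes is a plane.
-/

set_option autoImplicit false

namespace Pool.Agent.DDQ.H60

open MvPolynomial Pool.Agent.DDQ

variable {k : Type} [Field k]

/-- If `Q` vanishes on the zeros of the irreducible `F` then `F` divides `Q`. -/
theorem nss [IsAlgClosed k] {F Q : MvPolynomial (Fin 3) k} (hF : Irreducible F)
    (h : ∀ x : Fin 3 → k, eval x F = 0 → eval x Q = 0) : F ∣ Q := by
  have hp : (Ideal.span {F}).IsPrime := (Ideal.span_singleton_prime hF.ne_zero).2 hF.prime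
  have h1 : Q ∈ vanishingIdeal k (zeroLocus k (Ideal.span {F})) := by
    rw [mem_vanishingIdeal_iff]
    intro x hx
    rw [zeroLocus_span] at hx
    have h2 := hx F rfl
    rw [aeval_eq_eval] at h2 ⊢
    exact h x h2
  rw [MvPolynomial.IsPrime.vanishingIdeal_zeroLocus] at h1
  exact Ideal.mem_span_singleton.1 h1

theorem deg_pderiv (F : MvPolynomial (Fin 3) k) (r : Fin 3) (hd : pderiv r F ≠ 0) :
    (pderiv r F).totalDegree < F.totalDegree := by
  obtain ⟨m, hm, he⟩ := Finset.exists_mem_eq_sup (pderiv r F).support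
    (support_nonempty.2 hd) (fun s => s.sum fun _ e => e)
  have h1 : (pderiv r F).totalDegree = m.sum fun _ e => e := he
  rw [h1]
  rw [mem_support_iff, coeff_pderiv] at hm
  have h2 : m + Finsupp.single r 1 ∈ F.support := by
    rw [mem_support_iff]
    exact left_ne_zero_of_mul hm
  have h3 := le_totalDegree h2
  rw [Finsupp.sum_add_index' (fun _ => rfl) (fun _ _ _ => rfl), Finsupp.sum_single_index rfl] at h3
  omega

theorem exists_pderiv [CharZero k] (F : MvPolynomial (Fin 3) k) (hd : 0 < F.totalDegree) :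
    ∃ r, pderiv r F ≠ 0 := by
  have hF : F ≠ 0 := by rintro rfl; simp at hd
  obtain ⟨m, hm, he⟩ := Finset.exists_mem_eq_sup F.support
    (support_nonempty.2 hF) (fun s => s.sum fun _ e => e)
  have h1 : F.totalDegree = m.sum fun _ e => e := he
  have hm0 : m ≠ 0 := by
    rintro rfl
    rw [h1] at hd
    simp at hd
  obtain ⟨r, hr⟩ := Finsupp.ne_iff.1 hm0
  refine ⟨r, fun h => ?_⟩
  have h2 := coeff_pderiv (i := r) F (m - Finsupp.single r 1)
  rw [h, coeff_zero] at h2
  have h3 : m - Finsupp.single r 1 + Finsupp.single r 1 = m := by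
    apply tsub_add_cancel_of_le
    rw [Finsupp.single_le_iff]
    exact Nat.one_le_iff_ne_zero.2 hr
  rw [h3] at h2
  rcases mul_eq_zero.1 h2.symm with h4 | h4
  · exact (mem_support_iff.1 hm) h4
  · exact (Nat.cast_add_one_ne_zero (R := k) _) h4

theorem smooth [CharZero k] [IsAlgClosed k] {F : MvPolynomial (Fin 3) k} (hF : Irreducible F)
    (hd : 0 < F.totalDegree) :
    ∃ (P : Fin 3 → k) (r : Fin 3), eval P F = 0 ∧ eval P (pderiv r F) ≠ 0 := by
  by_contra hcon
  obtain ⟨r, hr⟩ := exists_pderiv F hd
  have h1 : F ∣ pderiv r F := nss hF fun x hx => by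
    by_contra h2
    exact hcon ⟨x, r, hx, h2⟩
  have h2 := totalDegree_le_of_dvd_of_isDomain h1 hr
  have h3 := deg_pderiv F r hr
  omega

/-- restriction to a line -/
noncomputable def toLine (P w : Fin 3 → k) : MvPolynomial (Fin 3) k →ₐ[k] Polynomial k :=
  aeval fun i => Polynomial.C (P i) + Polynomial.C (w i) * Polynomial.X

theorem toLine_X (P w : Fin 3 → k) (i : Fin 3) :
    toLine P w (X i) = Polynomial.C (P i) + Polynomial.C (w i) * Polynomial.X := aeval_X _ _

theorem toLine_C (P w : Fin 3 → k) (a : k) : toLine P w (C a) = Polynomial.C a :=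
  (toLine P w).commutes a

theorem toLine_eval (P w : Fin 3 → k) (t : k) (Q : MvPolynomial (Fin 3) k) :
    (toLine P w Q).eval t = eval (fun i => P i + w i * t) Q := by
  induction Q using MvPolynomial.induction_on with
  | C a => rw [toLine_C, Polynomial.eval_C, eval_C]
  | add p q hp hq => rw [map_add, Polynomial.eval_add, hp, hq, map_add]
  | mul_X p i hp =>
    rw [map_mul, Polynomial.eval_mul, hp, toLine_X, map_mul, eval_X]
    simp

theorem toLine_derivative (P w : Fin 3 → k) (Q : MvPolynomial (Fin 3) k) :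
    Polynomial.derivative (toLine P w Q) = ∑ i, Polynomial.C (w i) * toLine P w (pderiv i Q) := by
  induction Q using MvPolynomial.induction_on with
  | C a =>
    rw [toLine_C, Polynomial.derivative_C]
    simp
  | add p q hp hq =>
    rw [map_add, Polynomial.derivative_add, hp, hq, ← Finset.sum_add_distrib]
    refine Finset.sum_congr rfl fun i _ => ?_
    rw [map_add, map_add, mul_add]
  | mul_X p i hp =>
    rw [map_mul, Polynomial.derivative_mul, hp, toLine_X]
    have h1 : ∀ j, Polynomial.C (w j) * toLine P w (pderiv j (p * X i)) =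
        Polynomial.C (w j) * toLine P w (pderiv j p) *
          (Polynomial.C (P i) + Polynomial.C (w i) * Polynomial.X) +
        toLine P w p * (if j = i then Polynomial.C (w j) else 0) := by
      intro j
      rw [pderiv_mul, map_add, map_mul, map_mul, toLine_X]
      by_cases hj : j = i
      · subst hj
        rw [pderiv_X_self, if_pos rfl, map_one]
        ring
      · rw [pderiv_X_of_ne (fun h => hj h.symm), if_neg hj, map_zero]
        ring
    rw [Finset.sum_congr rfl (fun j _ => h1 j), Finset.sum_add_distrib, ← Finset.sum_mul,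
      ← Finset.mul_sum]
    simp

/-- The restriction of an irreducible flat surface to a tangent line vanishes. -/
theorem line_zero [CharZero k] {F : MvPolynomial (Fin 3) k} (r : Fin 3)
    (hflat : ∀ i j l m, F ∣ hess F i j l m) {P w : Fin 3 → k} (hP : eval P F = 0)
    (hr : eval P (pderiv r F) ≠ 0) (hw : ∑ i, w i * eval P (pderiv i F) = 0) :
    toLine P w F = 0 := by
  by_contra hg
  set φ := toLine P w with hφ
  have hP' : (fun i => P i + w i * (0 : k)) = P := by
    funext i; ring
  have g0 : (φ F).coeff 0 = 0 := by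
    rw [Polynomial.coeff_zero_eq_eval_zero, hφ, toLine_eval, hP', hP]
  have g1 : (φ F).coeff 1 = 0 := by
    have h1 : (Polynomial.derivative (φ F)).coeff 0 = 0 := by
      rw [Polynomial.coeff_zero_eq_eval_zero, hφ, toLine_derivative, Polynomial.eval_finsetSum]
      refine Eq.trans ?_ hw
      refine Finset.sum_congr rfl fun i _ => ?_
      rw [Polynomial.eval_mul, Polynomial.eval_C, toLine_eval, hP']
    rw [Polynomial.coeff_derivative] at h1
    simpa using h1
  have hm := Polynomial.coeff_natTrailingDegree_ne_zero.2 hg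
  have hlow : ∀ d < (φ F).natTrailingDegree, (φ F).coeff d = 0 :=
    fun d hd => Polynomial.coeff_eq_zero_of_lt_natTrailingDegree hd
  obtain ⟨m, hm2⟩ : ∃ m, (φ F).natTrailingDegree = m + 2 := by
    refine ⟨(φ F).natTrailingDegree - 2, ?_⟩
    have h0 : (φ F).natTrailingDegree ≠ 0 := fun h => hm (by rw [h]; exact g0)
    have h1 : (φ F).natTrailingDegree ≠ 1 := fun h => hm (by rw [h]; exact g1)
    omega
  rw [hm2] at hm hlow
  have hd0 : (Polynomial.X : Polynomial k) ^ (m + 1) ∣ φ F :=
    Polynomial.X_pow_dvd_iff.2 fun d hd => hlow d (by omega)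
  have hd1 : (Polynomial.X : Polynomial k) ^ (m + 1) ∣ Polynomial.derivative (φ F) :=
    Polynomial.X_pow_dvd_iff.2 fun d hd => by
      rw [Polynomial.coeff_derivative, hlow (d + 1) (by omega), zero_mul]
  -- the identity
  have key : φ (∑ p, ∑ q, C (w p) * C (w q) * hess F p r q r) =
      φ (pderiv r F) ^ 2 * Polynomial.derivative (Polynomial.derivative (φ F)) -
      Polynomial.derivative (φ F) * (φ (pderiv r F) * (∑ p, Polynomial.C (w p) *
        φ (pderiv p (pderiv r F))) + φ (pderiv r F) * (∑ q, Polynomial.C (w q) *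
        φ (pderiv r (pderiv q F))) - Polynomial.derivative (φ F) *
        φ (pderiv r (pderiv r F))) := by
    have e1 : Polynomial.derivative (φ F) = ∑ i, Polynomial.C (w i) * φ (pderiv i F) :=
      toLine_derivative P w F
    have e2 : Polynomial.derivative (Polynomial.derivative (φ F)) =
        ∑ i, Polynomial.C (w i) * ∑ j, Polynomial.C (w j) * φ (pderiv j (pderiv i F)) := by
      rw [e1, Polynomial.derivative_sum]
      refine Finset.sum_congr rfl fun i _ => ?_
      rw [Polynomial.derivative_C_mul, hφ, toLine_derivative]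
    rw [e2, e1]
    simp only [Fin.sum_univ_three, hess, map_add, map_mul, map_sub, hφ, toLine_C]
    ring
  have hdvd : (Polynomial.X : Polynomial k) ^ (m + 1) ∣
      φ (pderiv r F) ^ 2 * Polynomial.derivative (Polynomial.derivative (φ F)) := by
    have h1 : φ F ∣ φ (∑ p, ∑ q, C (w p) * C (w q) * hess F p r q r) := by
      apply map_dvd
      refine Finset.dvd_sum fun p _ => Finset.dvd_sum fun q _ => ?_
      exact (hflat p r q r).mul_left _
    have h2 := hd0.trans h1
    rw [key] at h2
    exact (dvd_sub_left (hd1.mul_right _)).1 h2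
  have hX : ¬ (Polynomial.X : Polynomial k) ∣ φ (pderiv r F) ^ 2 := by
    intro h
    have h1 := Polynomial.prime_X.dvd_of_dvd_pow h
    rw [Polynomial.X_dvd_iff, Polynomial.coeff_zero_eq_eval_zero, hφ, toLine_eval, hP'] at h1
    exact hr h1
  have h3 := Polynomial.prime_X.pow_dvd_of_dvd_mul_left _ hX hdvd
  have h4 := Polynomial.X_pow_dvd_iff.1 h3 m (by omega)
  rw [Polynomial.coeff_derivative, Polynomial.coeff_derivative] at h4
  rcases mul_eq_zero.1 h4 with h5 | h5
  · rcases mul_eq_zero.1 h5 with h6 | h6
    · exact hm h6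
    · exact Nat.cast_add_one_ne_zero (R := k) _ h6
  · exact Nat.cast_add_one_ne_zero (R := k) _ h5

/-- FLT. -/
theorem flt : FltStmt := by
  intro k _ _ _ F hF hdeg
  by_contra hcon
  have hflat : ∀ i j l m, F ∣ hess F i j l m := by
    intro i j l m
    by_contra h
    exact hcon ⟨i, j, l, m, h⟩
  obtain ⟨P, r, hP, hr⟩ := smooth hF (by omega)
  obtain ⟨l, hl⟩ : ∃ l : MvPolynomial (Fin 3) k,
      l = ∑ i, C (eval P (pderiv i F)) * (X i - C (P i)) := ⟨_, rfl⟩
  have h1 : F ∈ vanishingIdeal k (zeroLocus k (Ideal.span {l})) := by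
    rw [mem_vanishingIdeal_iff]
    intro x hx
    rw [zeroLocus_span] at hx
    have h2 := hx l rfl
    rw [aeval_eq_eval] at h2 ⊢
    have h3 := line_zero r hflat (w := fun i => x i - P i) hP hr (by
      rw [← h2]
      simp only [hl, map_sum, map_mul, map_sub, eval_C, eval_X]
      exact Finset.sum_congr rfl fun i _ => mul_comm _ _)
    have h4 := toLine_eval P (fun i => x i - P i) 1 F
    rw [h3, Polynomial.eval_zero] at h4
    have h5 : (fun i => P i + (x i - P i) * 1) = x := by funext i; ring
    rw [h5] at h4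
    exact h4.symm
  rw [vanishingIdeal_zeroLocus_eq_radical] at h1
  obtain ⟨n, hn⟩ := h1
  rw [Ideal.mem_span_singleton] at hn
  have hpd : pderiv r l = C (eval P (pderiv r F)) := by
    rw [hl, map_sum, Finset.sum_eq_single r]
    · rw [pderiv_C_mul, map_sub, pderiv_X_self, pderiv_C, sub_zero, mul_one]
    · intro i _ hi
      rw [pderiv_C_mul, map_sub, pderiv_X_of_ne hi, pderiv_C, sub_zero, mul_zero]
    · intro h; exact absurd (Finset.mem_univ r) h
  have hpos : 0 < l.totalDegree := by
    have := deg_pderiv l r (by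
      rw [hpd]
      exact fun h => hr (C_injective _ _ (by rw [h, C_0])))
    omega
  have hle : l.totalDegree ≤ 1 := by
    rw [hl]
    refine totalDegree_finsetSum_le fun i _ => ?_
    refine (totalDegree_mul _ _).trans ?_
    rw [totalDegree_C, zero_add]
    refine (totalDegree_sub _ _).trans ?_
    rw [totalDegree_C, totalDegree_X]
    simp
  have hl0 : l ≠ 0 := by
    intro h
    rw [h] at hpos
    simp at hpos
  obtain ⟨i, _, hi⟩ := (dvd_prime_pow hF.prime n).1 hn
  rcases Nat.eq_zero_or_pos i with hi0 | hi0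
  · rw [hi0, pow_zero, associated_one_iff_isUnit] at hi
    obtain ⟨c, -, hc⟩ := MvPolynomial.isUnit_iff_eq_C_of_isReduced.1 hi
    rw [hc, totalDegree_C] at hpos
    exact absurd hpos (lt_irrefl _)
  · have h2 : F ∣ l := (dvd_pow_self F hi0.ne').trans hi.symm.dvd
    have h3 := totalDegree_le_of_dvd_of_isDomain h2 hl0
    omega

end Pool.Agent.DDQ.H60
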